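import Pool.Agent.HLV.Eff

/-!
# MP_21f263_lc: half levels reduce to all higher full levels on transitive sofic shifts

For `n ≥ 1`: membership in the half level above `B n` is decidable for all alphabets if and only if
membership in `B (n + 1)` is decidable for factorial irreducible languages over one fixed alphabet
with at least two letters; and this follows from the same with any larger index in place of `n + 1`.
The reductions are computable many-one reductions on automata.
-/

namespace Pool.Agent.Results.MP_21f263_lc.HalfLevels

open Pool.Agent.DD Pool.Agent.HLV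

theorem result (m n : ℕ) (hn : 1 ≤ n) :
    ((∀ M, DecHalf M n) ↔ DecShift (m + 2) (n + 1)) ∧
    (∀ j, DecShift (m + 2) (n + 1 + j) → ∀ M, DecHalf M n) ∧
    (∀ M j : ℕ, ∃ f : Code → Code, Computable f ∧ ∀ c : Code,
      Factorial (langC (m + 2) (f c)) ∧ Irred (langC (m + 2) (f c)) ∧
      (langC M c ∈ Half (B (Fin M) n) ↔ langC (m + 2) (f c) ∈ B (Fin (m + 2)) (n + 1 + j)) ∧
      (langC M c ∈ Half (B (Fin M) n) ↔
        langC (m + 2) (f c) ∈ Half (B (Fin (m + 2)) (n + 1 + j)))) :=
  ⟨dec_iff m hn, fun j h M => dec_mono m j hn h M, fun M j => reduction M m j hn⟩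

end Pool.Agent.Results.MP_21f263_lc.HalfLevels
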