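import Pool.Agent.MSL.Fin

/-!
# MP_21f263_lc: membership in a level reduces to separation by the level below

`Lev A k` is the level `k / 2` of the dot-depth hierarchy over `A` (`B A (k / 2)` for even `k`, the half level
above `B A ((k - 1) / 2)` for odd `k`).  For every level `ℓ = k / 2 ≥ 3/2` and every alphabet with at least two
letters, membership in `ℓ + 1` is reducible to separation by `ℓ` over the same alphabet by a positive
truth-table reduction; hence membership in `ℓ + 1` is decidable iff separation by `ℓ` is decidable.

The proof is based on a criterion (`Pool.Agent.MSL.criterion`): `L ∈ B A (n+2)` iff `L` is aperiodic and two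
identities hold in its syntactic monoid, `(zeye)^ω ze (zeye)^ω = (zeye)^ω` for `B A (n+1)`-inseparable pairs
`(e, y)`, and `(eafbe)^ω (ecfde)^ω = (eafbe)^ω afd (ecfde)^ω`, where the side conditions on `(e, f; a)`, ...,
`(e, f; d)` are the `B (n+1)`-inseparability of two regular languages over a larger alphabet.
-/

namespace Pool.Agent.Results.MP_21f263_lc.LevelEquivalence

open Pool.Agent.DD Pool.Agent.HLV Pool.Agent.HSP Pool.Agent.MSL

theorem result (m k : ℕ) (hk : 3 ≤ k) :
    (∃ g : Code → List (List (Code × Code)), Computable g ∧ ∀ c,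
      (langC (m + 2) c ∈ Lev (Fin (m + 2)) (k + 2) ↔ ∀ q ∈ g c, ∃ p ∈ q,
        Separable (Lev (Fin (m + 2)) k) (langC (m + 2) p.1) (langC (m + 2) p.2))) ∧
    ((ComputablePred fun c : Code => langC (m + 2) c ∈ Lev (Fin (m + 2)) (k + 2)) ↔
      ComputablePred fun p : Code × Code =>
        Separable (Lev (Fin (m + 2)) k) (langC (m + 2) p.1) (langC (m + 2) p.2)) :=
  ⟨tt_lev m k hk, memL_iff_sepL m k hk⟩

end Pool.Agent.Results.MP_21f263_lc.LevelEquivalence
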