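import Pool.Agent.DD.Final

/-!
# MP_21f263_lc: every level of the dot-depth hierarchy on the reversible languages

For every level `i`, only finitely many languages in `B i` are reversible (in particular, only
finitely many have an inverse or orthodox syntactic monoid), and membership in `B i` is decidable
for reversible languages given by finite automata; the class contains star-free languages outside
every `B i`.
-/

namespace Pool.Agent.Results.MP_21f263_lc.ReversibleLevels

open Pool.Agent.DD

theorem result (m : ℕ) (hm : 2 ≤ m) (i : ℕ) :
    {L : Lang (Fin m) | L ∈ B (Fin m) i ∧ Rev L}.Finite ∧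
    (∃ F : Code → Bool, Computable F ∧
      ∀ c : Code, Rev (langC m c) → (F c = true ↔ langC m c ∈ B (Fin m) i)) ∧
    (∃ L : Lang (Fin m), InvSyn L ∧ (∃ j, L ∈ B (Fin m) j) ∧ L ∉ B (Fin m) i) ∧
    (∀ L : Lang (Fin m), Orthodox L → Rev L) ∧ (∀ L : Lang (Fin m), InvSyn L → Orthodox L) :=
  ⟨finite_rev i, computable_rev m i, exists_high m i hm, fun _ h => h.rev, fun _ h => h.orthodox⟩

end Pool.Agent.Results.MP_21f263_lc.ReversibleLevels
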