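import Pool.Agent.HSP.QLvl

/-!
# MP_21f263_lc: separation by a level reduces to membership one level higher

For every level `ℓ ≥ 3/2` of the dot-depth hierarchy, full or half, separation by `ℓ` over an arbitrary
alphabet is many-one reducible to membership in `ℓ + 1` over a fixed alphabet with at least two letters.
Hence membership in `B i` is decidable for all `i ≥ 3` if and only if separation by `B i` is decidable for
all `i ≥ 3`, and the set of the indices with decidable membership is downward closed.
-/

namespace Pool.Agent.Results.MP_21f263_lc.SeparationLevels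

open Pool.Agent.DD Pool.Agent.HLV Pool.Agent.HSP

theorem result (m : ℕ) :
    ((∀ i, 3 ≤ i → DecMem (m + 2) i) ↔ ∀ i, 3 ≤ i → ∀ M, DecSepB (M + 1) i) ∧
    (∀ i, 2 ≤ i → DecMem (m + 2) (i + 1) → ∀ M, DecSepB (M + 1) i ∧ DecMem (M + 1) i) ∧
    (∀ M k : ℕ, 3 ≤ k → ∃ f : Code × Code → Code, Computable f ∧ ∀ p : Code × Code,
      (Separable (Lev (Fin (M + 1)) k) (langC (M + 1) p.1) (langC (M + 1) p.2) ↔
        langC (m + 2) (f p) ∈ Lev (Fin (m + 2)) (k + 2))) :=
  ⟨all_iff m, fun _ hi h M => ⟨decSepB_of_mem M m hi h, decMem_of_sep (decSepB_of_mem M m hi h)⟩,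
    fun M _ hk => exists_lev M m hk⟩

end Pool.Agent.Results.MP_21f263_lc.SeparationLevels
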